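import Pool.Agent.W564.SC.Defs

/-!
# Project SC, part AD: charts adapted to a free torus action
-/

set_option autoImplicit false

open scoped Manifold ContDiff Topology
open Filter Set Metric

universe u

namespace Pool.Agent.W486.SC

open Pool.Agent.H718R2.G Pool.Agent.W564.SC

section model

variable {k n : ℕ} {N : Type u} [TopologicalSpace N] [ChartedSpace (V n) N]

/-- the action in the chart `φ` -/
def GG (R : V k → N → N) (φ : OpenPartialHomeomorph N (V n)) (p : V k × V n) : V n :=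
  φ (R p.1 (φ.symm p.2))

/-- its domain -/
def Om0 (R : V k → N → N) (φ : OpenPartialHomeomorph N (V n)) : Set (V k × V n) :=
  {p | p.2 ∈ φ.target ∧ R p.1 (φ.symm p.2) ∈ φ.source}

variable {R : V k → N → N} (hR : FreeTorus k n N R) {φ : OpenPartialHomeomorph N (V n)}

include hR

theorem actSymm_contOn : ContinuousOn (fun p : V k × V n => R p.1 (φ.symm p.2))
    {p | p.2 ∈ φ.target} := by
  have h1 : Continuous (fun q : V k × N => R q.1 q.2) := hR.smooth.continuous
  have h2 : ContinuousOn (fun p : V k × V n => (p.1, φ.symm p.2)) {p | p.2 ∈ φ.target} :=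
    continuousOn_fst.prodMk (φ.continuousOn_symm.comp continuousOn_snd (fun p hp => hp))
  exact h1.comp_continuousOn h2

theorem Om0_open : IsOpen (Om0 R φ) := by
  have h := (actSymm_contOn hR (φ := φ)).isOpen_inter_preimage
    (φ.open_target.preimage continuous_snd) φ.open_source
  exact h

theorem GG_smooth [IsManifold (𝓡 n) ∞ N] (hm : φ ∈ IsManifold.maximalAtlas (𝓡 n) ∞ N) :
    ContDiffOn ℝ ∞ (GG R φ) (Om0 R φ) := by
  have h0 : ContMDiffOn ((𝓡 k).prod (𝓡 n)) ((𝓡 k).prod (𝓡 n)) ∞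
      (fun p : V k × V n => (p.1, φ.symm p.2)) (Om0 R φ) :=
    contMDiffOn_fst.prodMk ((contMDiffOn_symm_of_mem_maximalAtlas hm).comp contMDiffOn_snd
      (fun p hp => hp.1))
  have h1 : ContMDiffOn ((𝓡 k).prod (𝓡 n)) (𝓡 n) ∞
      (fun p : V k × V n => R p.1 (φ.symm p.2)) (Om0 R φ) :=
    hR.smooth.comp_contMDiffOn h0
  have h2 : ContMDiffOn ((𝓡 k).prod (𝓡 n)) (𝓡 n) ∞ (GG R φ) (Om0 R φ) :=
    (contMDiffOn_of_mem_maximalAtlas hm).comp h1 (fun p hp => hp.2)
  have h3 : ContMDiffOn 𝓘(ℝ, V k × V n) 𝓘(ℝ, V n) ∞ (GG R φ) (Om0 R φ) := by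
    rw [modelWithCornersSelf_prod, ← chartedSpaceSelf_prod]
    exact h2
  exact h3.contDiffOn

theorem zero_mem {z : N} (hz : z ∈ φ.source) : ((0 : V k), φ z) ∈ Om0 R φ := by
  refine ⟨φ.map_source hz, ?_⟩
  rw [φ.left_inv hz, hR.zero]
  exact hz

theorem GG_add {a b : V k} {w : V n} (h : (b, w) ∈ Om0 R φ) :
    GG R φ (a, GG R φ (b, w)) = GG R φ (a + b, w) := by
  unfold GG
  simp only
  rw [φ.left_inv h.2, hR.add]

/-- the derivative of the orbit map is injective -/
theorem inj_deriv [IsManifold (𝓡 n) ∞ N] (hm : φ ∈ IsManifold.maximalAtlas (𝓡 n) ∞ N) {z : N}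
    (hz : z ∈ φ.source) (v : V k)
    (hv : fderiv ℝ (fun γ => GG R φ (γ, φ z)) 0 v = 0) : v = 0 := by
  have hO := Om0_open hR (φ := φ)
  have hG := GG_smooth hR hm
  have hz0 := zero_mem hR hz
  -- interval
  have hcont : Continuous (fun t : ℝ => ((t • v, φ z) : V k × V n)) := by fun_prop
  have hopen : IsOpen {t : ℝ | ((t • v, φ z) : V k × V n) ∈ Om0 R φ} := hO.preimage hcont
  obtain ⟨ε, hε, hball⟩ := Metric.isOpen_iff.1 hopen 0 (by
    change (((0 : ℝ) • v, φ z) : V k × V n) ∈ Om0 R φ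
    rw [zero_smul]; exact hz0)
  have hmem : ∀ t ∈ ball (0 : ℝ) ε, ((t • v, φ z) : V k × V n) ∈ Om0 R φ := fun t ht => hball ht
  set β : ℝ → V n := fun t => GG R φ (t • v, φ z) with hβ
  have hβ0 : β 0 = φ z := by
    simp only [hβ, GG, zero_smul]
    rw [φ.left_inv hz, hR.zero]
  have hder : ∀ t ∈ ball (0 : ℝ) ε, HasDerivAt β 0 t := by
    intro t ht
    have hA : HasFDerivAt (fun γ => GG R φ (γ, φ z))
        (fderiv ℝ (fun γ => GG R φ (γ, φ z)) 0) 0 := by
      have h1 : DifferentiableAt ℝ (GG R φ) ((0 : V k), φ z) :=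
        (hG.contDiffAt (hO.mem_nhds hz0)).differentiableAt (by simp)
      have h2 : DifferentiableAt ℝ (fun γ : V k => ((γ, φ z) : V k × V n)) 0 := by fun_prop
      exact (h1.comp (0 : V k) h2).hasFDerivAt
    have hu : HasDerivAt (fun s : ℝ => GG R φ ((s - t) • v, φ z)) 0 t := by
      have h1 : HasDerivAt (fun s : ℝ => (s - t) • v) v t := by
        have := ((hasDerivAt_id t).sub_const t).smul_const v
        simpa using this
      have h2 : HasFDerivAt (fun γ => GG R φ (γ, φ z))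
          (fderiv ℝ (fun γ => GG R φ (γ, φ z)) 0) ((t - t) • v) := by
        rw [sub_self, zero_smul]; exact hA
      have h3 := h2.comp_hasDerivAt t h1
      rw [hv] at h3
      exact h3
    have hW : DifferentiableAt ℝ (fun w : V n => GG R φ (t • v, w)) (φ z) := by
      have h1 : DifferentiableAt ℝ (GG R φ) (t • v, φ z) :=
        (hG.contDiffAt (hO.mem_nhds (hmem t ht))).differentiableAt (by simp)
      have h2 : DifferentiableAt ℝ (fun w : V n => ((t • v, w) : V k × V n)) (φ z) := by fun_prop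
      exact h1.comp (φ z) h2
    have hW' : HasFDerivAt (fun w : V n => GG R φ (t • v, w))
        (fderiv ℝ (fun w : V n => GG R φ (t • v, w)) (φ z))
        (GG R φ ((t - t) • v, φ z)) := by
      have : GG R φ ((t - t) • v, φ z) = φ z := by
        rw [sub_self, zero_smul]
        simp only [GG]
        rw [φ.left_inv hz, hR.zero]
      rw [this]
      exact hW.hasFDerivAt
    have h3 := hW'.comp_hasDerivAt t hu
    rw [map_zero] at h3
    refine h3.congr_of_eventuallyEq ?_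
    have hev : ∀ᶠ s in 𝓝 t, (((s - t) • v, φ z) : V k × V n) ∈ Om0 R φ := by
      have hc : Continuous (fun s : ℝ => (((s - t) • v, φ z) : V k × V n)) := by fun_prop
      refine hc.continuousAt.eventually_mem (hO.mem_nhds ?_)
      rw [sub_self, zero_smul]; exact hz0
    filter_upwards [hev] with s hs
    simp only [hβ, Function.comp]
    rw [GG_add hR hs, ← add_smul]
    congr 3
    ring
  have hconst : ∀ t ∈ ball (0 : ℝ) ε, β t = β 0 := by
    intro t ht
    refine isOpen_ball.is_const_of_deriv_eq_zero (convex_ball (0 : ℝ) ε).isPreconnected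
      (fun s hs => (hder s hs).differentiableAt.differentiableWithinAt)
      (fun s hs => (hder s hs).deriv) ht (mem_ball_self hε)
  have hfix : ∀ t ∈ ball (0 : ℝ) ε, R (t • v) z = z := by
    intro t ht
    have h1 := hconst t ht
    rw [hβ0] at h1
    have h2 := (hmem t ht).2
    simp only [hβ, GG] at h1
    rw [φ.left_inv hz] at h1 h2
    exact φ.injOn h2 hz h1
  ext j
  by_contra hj
  have hj' : v j ≠ 0 := hj
  set t : ℝ := min (ε / 2) (1 / (2 * |v j|)) with ht
  have hvj : 0 < |v j| := abs_pos.2 hj'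
  have ht0 : 0 < t := lt_min (by positivity) (by positivity)
  have htε : t ∈ ball (0 : ℝ) ε := by
    rw [mem_ball, dist_zero_right, Real.norm_of_nonneg ht0.le]
    have := min_le_left (ε / 2) (1 / (2 * |v j|))
    linarith
  obtain ⟨m, hm'⟩ := (hR.free _ z).1 (hfix t htε) j
  have h1 : t * v j = m := hm'
  have h2 : |t * v j| ≤ 1 / 2 := by
    rw [abs_mul, abs_of_pos ht0]
    calc t * |v j| ≤ 1 / (2 * |v j|) * |v j| :=
          mul_le_mul_of_nonneg_right (min_le_right _ _) hvj.le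
      _ = 1 / 2 := by field_simp
  have h3 : 0 < |t * v j| := by
    rw [abs_mul, abs_of_pos ht0]; positivity
  rw [h1] at h2 h3
  have h4 : (|m| : ℝ) < 1 := by linarith
  have h5 : |m| < 1 := by exact_mod_cast h4
  have h6 : m = 0 := by rwa [Int.abs_lt_one_iff] at h5
  rw [h6] at h3
  simp at h3

end model

/-! ### linear algebra -/

theorem complement {k n : ℕ} (A : V k →L[ℝ] V n) (hA : ∀ v, A v = 0 → v = 0) :
    ∃ (D : ℕ) (L : V D →L[ℝ] V n) (B : (V k × V D) ≃L[ℝ] V n), D + k = n ∧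
      ∀ p, B p = A p.1 + L p.2 := by
  have hinj : Function.Injective (A : V k →ₗ[ℝ] V n) := by
    rw [← LinearMap.ker_eq_bot, LinearMap.ker_eq_bot']
    exact fun v hv => hA v hv
  have hk : Module.finrank ℝ (V k) = k := by simp
  have hn : Module.finrank ℝ (V n) = n := by simp
  have hle : k ≤ n := by
    have := LinearMap.finrank_le_finrank_of_injective hinj
    rwa [hk, hn] at this
  set W := LinearMap.range (A : V k →ₗ[ℝ] V n) with hW
  have hWd : Module.finrank ℝ W = k := by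
    rw [hW, LinearMap.finrank_range_of_inj hinj, hk]
  obtain ⟨W', hW'⟩ := Submodule.exists_isCompl W
  have hd := Submodule.finrank_add_eq_of_isCompl hW'
  rw [hWd, hn] at hd
  have hD : Module.finrank ℝ (V (n - k)) = Module.finrank ℝ W' := by
    simp; omega
  let Le : V (n - k) ≃ₗ[ℝ] W' := LinearEquiv.ofFinrankEq _ _ hD
  let L : V (n - k) →ₗ[ℝ] V n := W'.subtype ∘ₗ Le.toLinearMap
  let Bl : (V k × V (n - k)) →ₗ[ℝ] V n := (A : V k →ₗ[ℝ] V n).coprod L
  have hBinj : Function.Injective Bl := by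
    rw [← LinearMap.ker_eq_bot, LinearMap.ker_eq_bot']
    rintro ⟨γ, σ⟩ h
    have h1 : A γ + (Le σ : V n) = 0 := h
    have h2 : A γ ∈ W := ⟨γ, rfl⟩
    have h3 : A γ ∈ W' := by
      have : A γ = -(Le σ : V n) := eq_neg_of_add_eq_zero_left h1
      rw [this]
      exact W'.neg_mem (Le σ).2
    have h4 : A γ = 0 := by
      have := hW'.disjoint.le_bot ⟨h2, h3⟩
      simpa using this
    have h5 : γ = 0 := hA γ h4
    have h6 : (Le σ : V n) = 0 := by rw [h4, zero_add] at h1; exact h1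
    have h7 : σ = 0 := by
      have : Le σ = 0 := Subtype.ext h6
      simpa using this
    rw [h5, h7]; rfl
  have hfr : Module.finrank ℝ (V k × V (n - k)) = Module.finrank ℝ (V n) := by
    rw [Module.finrank_prod]; simp; omega
  refine ⟨n - k, LinearMap.toContinuousLinearMap L,
    (LinearEquiv.ofInjectiveOfFinrankEq Bl hBinj hfr).toContinuousLinearEquiv, by omega, ?_⟩
  intro p
  rfl

/-! ### inverse function theorem -/

theorem ift {E F : Type} [NormedAddCommGroup E] [NormedSpace ℝ E] [CompleteSpace E]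
    [NormedAddCommGroup F] [NormedSpace ℝ F] {θ : E → F} {Ω : Set E}
    (hΩ : IsOpen Ω) (hθ : ContDiffOn ℝ ∞ θ Ω) {a : E} (ha : a ∈ Ω) (B : E ≃L[ℝ] F)
    (hB : HasFDerivAt θ (B : E →L[ℝ] F) a) :
    ∃ Θ : OpenPartialHomeomorph E F, (∀ p, Θ p = θ p) ∧ a ∈ Θ.source ∧ Θ.source ⊆ Ω ∧
      ContDiffOn ℝ ∞ Θ.symm Θ.target := by
  have hat : ∀ p ∈ Ω, ContDiffAt ℝ ∞ θ p := fun p hp => hθ.contDiffAt (hΩ.mem_nhds hp)
  set Θ0 := (hat a ha).toOpenPartialHomeomorph θ hB (by simp) with hΘ0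
  have hcoe : ∀ p, Θ0 p = θ p := fun p => rfl
  have hfc : ContinuousOn (fderiv ℝ θ) Ω :=
    hθ.continuousOn_fderiv_of_isOpen hΩ (by simp)
  have hO : IsOpen (Ω ∩ fderiv ℝ θ ⁻¹' (range ((↑) : (E ≃L[ℝ] F) → E →L[ℝ] F))) :=
    hfc.isOpen_inter_preimage hΩ ContinuousLinearEquiv.isOpen
  refine ⟨Θ0.restrOpen _ hO, hcoe, ?_, ?_, ?_⟩
  · rw [OpenPartialHomeomorph.restrOpen_source]
    refine ⟨ContDiffAt.mem_toOpenPartialHomeomorph_source _ _ _, ha, B, ?_⟩
    exact hB.fderiv.symm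
  · rw [OpenPartialHomeomorph.restrOpen_source]
    exact fun p hp => hp.2.1
  · intro w hw
    set Θ := Θ0.restrOpen _ hO with hΘ
    have hp : Θ.symm w ∈ Θ.source := Θ.map_target hw
    have hp2 := hp
    rw [hΘ, OpenPartialHomeomorph.restrOpen_source] at hp2
    obtain ⟨-, hpΩ, B', hB'⟩ := hp2
    have h1 : ContDiffAt ℝ ∞ θ (Θ.symm w) := hat _ hpΩ
    have h2 : HasFDerivAt θ (B' : E →L[ℝ] F) (Θ.symm w) := by
      rw [hB']
      exact (h1.differentiableAt (by simp)).hasFDerivAt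
    exact (Θ.contDiffAt_symm hw (f₀' := B') h2 h1).contDiffWithinAt

/-! ### the adapted chart -/

theorem GG_deriv {k n : ℕ} {N : Type u} [TopologicalSpace N] [ChartedSpace (V n) N]
    [IsManifold (𝓡 n) ∞ N] {R : V k → N → N} (hR : FreeTorus k n N R)
    {φ : OpenPartialHomeomorph N (V n)}
    (hm : φ ∈ IsManifold.maximalAtlas (𝓡 n) ∞ N) {z : N} (hz : z ∈ φ.source) :
    ∃ G' : (V k × V n) →L[ℝ] V n, HasFDerivAt (GG R φ) G' (0, φ z) ∧
      ∀ γ w, G' (γ, w) = fderiv ℝ (fun γ => GG R φ (γ, φ z)) 0 γ + w := by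
  have hO := Om0_open hR (φ := φ)
  have hz0 := zero_mem hR hz
  have hG : HasFDerivAt (GG R φ) (fderiv ℝ (GG R φ) (0, φ z)) (0, φ z) :=
    (((GG_smooth hR hm).contDiffAt (hO.mem_nhds hz0)).differentiableAt (by simp)).hasFDerivAt
  set G' := fderiv ℝ (GG R φ) (0, φ z) with hG'
  refine ⟨G', hG, ?_⟩
  have h1 : HasFDerivAt (fun γ : V k => GG R φ (γ, φ z)) (G'.comp (ContinuousLinearMap.inl ℝ _ _)) 0 := by
    have h : HasFDerivAt (fun γ : V k => ((γ, φ z) : V k × V n))
        (ContinuousLinearMap.inl ℝ (V k) (V n)) 0 := hasFDerivAt_prodMk_left _ _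
    exact HasFDerivAt.comp (0 : V k) hG h
  have h2 : HasFDerivAt (fun w : V n => GG R φ (0, w)) (G'.comp (ContinuousLinearMap.inr ℝ _ _))
      (φ z) := by
    have h : HasFDerivAt (fun w : V n => (((0 : V k), w) : V k × V n))
        (ContinuousLinearMap.inr ℝ (V k) (V n)) (φ z) := hasFDerivAt_prodMk_right _ _
    exact HasFDerivAt.comp (φ z) hG h
  have h3 : HasFDerivAt (fun w : V n => GG R φ (0, w)) (ContinuousLinearMap.id ℝ (V n)) (φ z) := by
    refine (hasFDerivAt_id (φ z)).congr_of_eventuallyEq ?_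
    filter_upwards [φ.open_target.mem_nhds (φ.map_source hz)] with w hw
    simp only [GG, id]
    rw [hR.zero, φ.right_inv hw]
  have h4 := h2.unique h3
  intro γ w
  have e : ((γ, w) : V k × V n) = (γ, 0) + (0, w) := by simp
  rw [e, map_add, h1.fderiv]
  congr 1
  exact DFunLike.congr_fun h4 w

theorem chart {k n : ℕ} {N : Type u} [TopologicalSpace N] [ChartedSpace (V n) N]
    [IsManifold (𝓡 n) ∞ N] {R : V k → N → N} (hR : FreeTorus k n N R) (z : N) :
    ∃ (D : ℕ) (χ : OpenPartialHomeomorph N (V n)) (e : V n ≃L[ℝ] (V k × V D)) (c : ℝ),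
      D + k = n ∧ GoodChart n N χ z ∧ 0 < c ∧
      (∀ y ∈ χ.source, ∀ γ : V k, ‖e (χ y)‖ ≤ c → ‖γ‖ ≤ c →
        R γ y ∈ χ.source ∧ e (χ (R γ y)) = e (χ y) + (γ, 0)) := by
  set φ : OpenPartialHomeomorph N (V n) := chartAt (V n) z with hφ
  have hz : z ∈ φ.source := mem_chart_source _ z
  have hm : φ ∈ IsManifold.maximalAtlas (𝓡 n) ∞ N := IsManifold.chart_mem_maximalAtlas z
  obtain ⟨D, L, B, hD, hB⟩ := complement (fderiv ℝ (fun γ => GG R φ (γ, φ z)) 0)
    (fun v hv => inj_deriv hR hm hz v hv)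
  obtain ⟨G', hG, hG'⟩ := GG_deriv hR hm hz
  set j : V k × V D → V k × V n := fun p => (p.1, φ z + L p.2) with hjd
  have hj : ContDiff ℝ ∞ j := by
    refine contDiff_fst.prodMk (contDiff_const.add ?_)
    exact L.contDiff.comp contDiff_snd
  have hj0 : j 0 = (0, φ z) := by simp [hjd]
  set θ : V k × V D → V n := fun p => GG R φ (j p) with hθd
  have hΩ : IsOpen (j ⁻¹' Om0 R φ) := (Om0_open hR).preimage hj.continuous
  have hθ : ContDiffOn ℝ ∞ θ (j ⁻¹' Om0 R φ) :=
    (GG_smooth hR hm).comp hj.contDiffOn (fun p hp => hp)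
  have h0Ω : (0 : V k × V D) ∈ j ⁻¹' Om0 R φ := by
    rw [mem_preimage, hj0]; exact zero_mem hR hz
  have hBd : HasFDerivAt θ (B : (V k × V D) →L[ℝ] V n) 0 := by
    have h1 : HasFDerivAt j ((ContinuousLinearMap.fst ℝ (V k) (V D)).prod
        (L.comp (ContinuousLinearMap.snd ℝ (V k) (V D)))) 0 := by
      refine HasFDerivAt.prodMk hasFDerivAt_fst ?_
      exact ((L.comp (ContinuousLinearMap.snd ℝ (V k) (V D))).hasFDerivAt).const_add _
    have h2 : HasFDerivAt (GG R φ) G' (j 0) := by rw [hj0]; exact hG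
    have h3 := h2.comp (0 : V k × V D) h1
    have e : (B : (V k × V D) →L[ℝ] V n) = G'.comp ((ContinuousLinearMap.fst ℝ (V k) (V D)).prod
        (L.comp (ContinuousLinearMap.snd ℝ (V k) (V D)))) := by
      refine ContinuousLinearMap.ext fun p => ?_
      have := hG' p.1 (L p.2)
      rw [← hB p] at this
      exact this.symm
    rw [e]
    exact h3
  obtain ⟨Θ, hΘ, h0Θ, hΘΩ, hΘs⟩ := ift hΩ hθ h0Ω B hBd
  obtain ⟨δ, hδ, hball⟩ := Metric.nhds_basis_closedBall.mem_iff.mp (Θ.open_source.mem_nhds h0Θ)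
  set b : ℝ := ‖(B.symm : V n →L[ℝ] (V k × V D))‖ with hb
  have hb0 : 0 ≤ b := norm_nonneg _
  set ρ : ℝ := δ / (b + 1) with hρ
  have hρ0 : 0 < ρ := by positivity
  set e : V n ≃L[ℝ] (V k × V D) :=
    B.symm.trans (ContinuousLinearEquiv.smulLeft (Units.mk0 ρ hρ0.ne')) with he
  have hev : ∀ v, e v = ρ • B.symm v := fun v => rfl
  have heb : ∀ v, ‖v‖ ≤ 1 → ‖e v‖ ≤ δ := by
    intro v hv
    rw [hev, norm_smul, Real.norm_of_nonneg hρ0.le]
    have h1 : ‖B.symm v‖ ≤ b * ‖v‖ := (B.symm : V n →L[ℝ] (V k × V D)).le_opNorm v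
    calc ρ * ‖B.symm v‖ ≤ ρ * (b + 1) := by
          refine mul_le_mul_of_nonneg_left ?_ hρ0.le
          nlinarith
      _ = δ := by rw [hρ]; field_simp
  -- basic facts on Θ
  have hθφ : ∀ p ∈ Θ.source, Θ p ∈ φ.target := by
    intro p hp
    rw [hΘ]
    exact φ.map_source (hΘΩ hp).2
  have hpt : ∀ p ∈ Θ.source, φ.symm (Θ p) = R p.1 (φ.symm (φ z + L p.2)) := by
    intro p hp
    rw [hΘ]
    exact φ.left_inv (hΘΩ hp).2
  have hΘ0 : Θ 0 = φ z := by
    rw [hΘ]
    simp only [hθd, hj0, GG]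
    rw [φ.left_inv hz, hR.zero]
  set χ : OpenPartialHomeomorph N (V n) :=
    (φ.trans Θ.symm).transHomeomorph e.symm.toHomeomorph with hχ
  have hχv : ∀ y, e (χ y) = Θ.symm (φ y) := by
    intro y
    change e (e.symm (Θ.symm (φ y))) = _
    rw [e.apply_symm_apply]
  have hχs : ∀ y, y ∈ χ.source ↔ y ∈ φ.source ∧ φ y ∈ Θ.target := fun y => Iff.rfl
  refine ⟨D, χ, e, δ / 2, hD, ⟨?_, ?_, ?_, ?_⟩, by positivity, ?_⟩
  · apply OpenPartialHomeomorph.mem_maximalAtlas_of_contMDiffOn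
    · have h1 : ContDiffOn ℝ ∞ (fun w => e.symm (Θ.symm w)) Θ.target :=
        e.symm.contDiff.comp_contDiffOn hΘs
      have h2 : ContMDiffOn (𝓡 n) (𝓡 n) ∞ ((fun w => e.symm (Θ.symm w)) ∘ φ) χ.source :=
        h1.contMDiffOn.comp ((contMDiffOn_of_mem_maximalAtlas hm).mono (fun y hy => hy.1))
          (fun y hy => hy.2)
      exact h2
    · have h1 : ContDiffOn ℝ ∞ (fun v => Θ (e v)) (e ⁻¹' Θ.source) := by
        have : ContDiffOn ℝ ∞ (fun v => θ (e v)) (e ⁻¹' Θ.source) :=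
          hθ.comp e.contDiff.contDiffOn (fun v hv => hΘΩ hv)
        exact this.congr (fun v _ => hΘ (e v))
      have h2 : ContMDiffOn (𝓡 n) (𝓡 n) ∞ (φ.symm ∘ (fun v => Θ (e v))) (e ⁻¹' Θ.source) :=
        (contMDiffOn_symm_of_mem_maximalAtlas hm).comp h1.contMDiffOn
          (fun v hv => hθφ _ hv)
      refine (h2.mono ?_)
      intro v hv
      exact hv.1
  · rw [hχs]
    refine ⟨hz, ?_⟩
    rw [← hΘ0]
    exact Θ.map_source h0Θ
  · have h1 : e (χ z) = 0 := by
      rw [hχv, ← hΘ0, Θ.left_inv h0Θ]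
    have := e.injective (a₁ := χ z) (a₂ := 0) (by rw [h1, map_zero])
    exact this
  · intro v hv
    rw [mem_closedBall, dist_zero_right] at hv
    have h1 : e v ∈ Θ.source := hball (by
      rw [mem_closedBall, dist_zero_right]; exact heb v hv)
    exact ⟨h1, hθφ _ h1⟩
  · intro y hy γ h1 h2
    rw [hχs] at hy
    rw [hχv] at h1
    set p := Θ.symm (φ y) with hp
    have hps : p ∈ Θ.source := Θ.map_target hy.2
    have hΘp : Θ p = φ y := Θ.right_inv hy.2
    have hy' : y = R p.1 (φ.symm (φ z + L p.2)) := by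
      rw [← hpt p hps, hΘp, φ.left_inv hy.1]
    set p' : V k × V D := p + (γ, 0) with hp'
    have hp's : p' ∈ Θ.source := by
      apply hball
      rw [mem_closedBall, dist_zero_right]
      calc ‖p'‖ ≤ ‖p‖ + ‖((γ, 0) : V k × V D)‖ := norm_add_le _ _
        _ ≤ δ / 2 + δ / 2 := by
            refine add_le_add h1 ?_
            rw [Prod.norm_mk, norm_zero, max_eq_left (norm_nonneg _)]
            exact h2
        _ = δ := by ring
    have hRy : R γ y = R p'.1 (φ.symm (φ z + L p'.2)) := by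
      rw [hy', ← hR.add]
      have e1 : p'.1 = γ + p.1 := by simp [hp', add_comm]
      have e2 : p'.2 = p.2 := by simp [hp']
      rw [e1, e2]
    have hRs : R γ y ∈ φ.source := by
      rw [hRy]; exact (hΘΩ hp's).2
    have hφR : φ (R γ y) = Θ p' := by
      rw [hRy, hΘ]; rfl
    refine ⟨?_, ?_⟩
    · rw [hχs]
      exact ⟨hRs, by rw [hφR]; exact Θ.map_source hp's⟩
    · rw [hχv, hφR, Θ.left_inv hp's, hχv]

/-! ### the global statement -/

theorem fract_bd {k : ℕ} (γ : V k) : ∃ l : V k, (∀ j, ∃ m : ℤ, l j = m) ∧ ‖γ - l‖ ≤ Real.sqrt k := by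
  refine ⟨WithLp.toLp 2 (fun j => ((⌊γ j⌋ : ℤ) : ℝ)), fun j => ⟨⌊γ j⌋, rfl⟩, ?_⟩
  rw [EuclideanSpace.norm_eq]
  apply Real.sqrt_le_sqrt
  calc ∑ j, ‖(γ - WithLp.toLp 2 (fun j => ((⌊γ j⌋ : ℤ) : ℝ))) j‖ ^ 2
      ≤ ∑ _j : Fin k, (1 : ℝ) := by
        refine Finset.sum_le_sum fun j _ => ?_
        have h1 : (γ - WithLp.toLp 2 (fun j => ((⌊γ j⌋ : ℤ) : ℝ))) j = Int.fract (γ j) := by
          change γ j - ((⌊γ j⌋ : ℤ) : ℝ) = Int.fract (γ j)
          rw [Int.self_sub_floor]
        rw [h1, Real.norm_of_nonneg (Int.fract_nonneg _)]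
        have h2 := Int.fract_nonneg (γ j)
        have h3 := (Int.fract_lt_one (γ j)).le
        nlinarith
    _ = k := by simp

theorem ad : S_AD.{u} := by
  intro k n N _ _ _ _ _ R hR z
  obtain ⟨D, χ, e, c, hD, hχ, hc, hloc⟩ := chart hR z
  have hcontR : Continuous (fun q : V k × N => R q.1 q.2) := hR.smooth.continuous
  have key : ∃ c' : ℝ, 0 < c' ∧ ∀ y ∈ χ.source, ∀ γ : V k, R γ y ∈ χ.source →
      ‖e (χ y)‖ ≤ c' → ‖e (χ (R γ y))‖ ≤ c' →
      ∃ l : V k, (∀ j, ∃ m : ℤ, l j = m) ∧ e (χ (R γ y)) = e (χ y) + (γ - l, 0) := by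
    by_contra hcon
    push Not at hcon
    have hpos : ∀ m : ℕ, (0 : ℝ) < 1 / ((m : ℝ) + 1) := fun m => by positivity
    choose y hy γ hRy h1 h2 h3 using fun m : ℕ => hcon (1 / ((m : ℝ) + 1)) (hpos m)
    choose l hl hlb using fun m => fract_bd (γ m)
    have hlim : Tendsto (fun m : ℕ => 1 / ((m : ℝ) + 1)) atTop (𝓝 0) :=
      tendsto_one_div_add_atTop_nhds_zero_nat
    -- points close to z
    have hconv : ∀ w : ℕ → N, (∀ m, w m ∈ χ.source) → (∀ m, ‖e (χ (w m))‖ ≤ 1 / ((m : ℝ) + 1)) →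
        Tendsto w atTop (𝓝 z) := by
      intro w hw hwb
      have a1 : Tendsto (fun m => e (χ (w m))) atTop (𝓝 0) :=
        squeeze_zero_norm hwb hlim
      have a2 : Tendsto (fun m => χ (w m)) atTop (𝓝 0) := by
        have := (e.symm.continuous.tendsto 0).comp a1
        rw [map_zero] at this
        refine this.congr fun m => ?_
        simp
      have h0 : (0 : V n) ∈ χ.target := by rw [← hχ.zero]; exact χ.map_source hχ.src
      have a3 : Tendsto (fun m => χ.symm (χ (w m))) atTop (𝓝 (χ.symm 0)) :=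
        (χ.continuousAt_symm h0).tendsto.comp a2
      have a4 : χ.symm 0 = z := by rw [← hχ.zero]; exact χ.left_inv hχ.src
      rw [a4] at a3
      refine a3.congr fun m => ?_
      exact χ.left_inv (hw m)
    have hyz := hconv y hy h1
    have hRz := hconv (fun m => R (γ m) (y m)) hRy h2
    -- reduce modulo the lattice
    have hshift : ∀ m, R (γ m - l m) (y m) = R (γ m) (y m) := by
      intro m
      have a1 : R (l m) (y m) = y m := (hR.free _ _).2 (hl m)
      have a2 : R (γ m) (y m) = R (γ m - l m) (R (l m) (y m)) := by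
        rw [← hR.add, sub_add_cancel]
      rw [a2, a1]
    obtain ⟨g, -, ψ, hψ, hg⟩ := tendsto_subseq_of_bounded
      (s := closedBall (0 : V k) (Real.sqrt k)) isBounded_closedBall
      (x := fun m => γ m - l m) (fun m => by
        rw [mem_closedBall, dist_zero_right]; exact hlb m)
    have b1 : Tendsto (fun m => R ((γ (ψ m)) - l (ψ m)) (y (ψ m))) atTop (𝓝 (R g z)) := by
      have := (hcontR.tendsto (g, z)).comp
        (hg.prodMk_nhds (hyz.comp hψ.tendsto_atTop))
      exact this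
    have b2 : Tendsto (fun m => R ((γ (ψ m)) - l (ψ m)) (y (ψ m))) atTop (𝓝 z) := by
      refine (hRz.comp hψ.tendsto_atTop).congr fun m => ?_
      exact (hshift (ψ m)).symm
    have b3 : R g z = z := tendsto_nhds_unique b1 b2
    have hgZ := (hR.free g z).1 b3
    -- large m
    have ev1 : ∀ᶠ m in atTop, ‖(γ (ψ m) - l (ψ m)) - g‖ ≤ c := by
      have := (tendsto_iff_norm_sub_tendsto_zero.1 hg).eventually (ge_mem_nhds hc)
      exact this
    have ev2 : ∀ᶠ m in atTop, 1 / (((ψ m : ℕ) : ℝ) + 1) ≤ c :=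
      (hlim.comp hψ.tendsto_atTop).eventually (ge_mem_nhds hc)
    obtain ⟨m, hm1, hm2⟩ := (ev1.and ev2).exists
    have c1 := (hloc (y (ψ m)) (hy (ψ m)) ((γ (ψ m) - l (ψ m)) - g) ((h1 (ψ m)).trans hm2) hm1).2
    have hlg : ∀ j, ∃ q : ℤ, (l (ψ m) + g) j = q := by
      intro j
      obtain ⟨q1, hq1⟩ := hl (ψ m) j
      obtain ⟨q2, hq2⟩ := hgZ j
      refine ⟨q1 + q2, ?_⟩
      rw [PiLp.add_apply, hq1, hq2]; push_cast; rfl
    have c2 : R ((γ (ψ m) - l (ψ m)) - g) (y (ψ m)) = R (γ (ψ m)) (y (ψ m)) := by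
      have a1 : R (l (ψ m) + g) (y (ψ m)) = y (ψ m) := (hR.free _ _).2 hlg
      have a2 : R (γ (ψ m)) (y (ψ m))
          = R ((γ (ψ m) - l (ψ m)) - g) (R (l (ψ m) + g) (y (ψ m))) := by
        rw [← hR.add]; congr 1; abel
      rw [a2, a1]
    rw [c2] at c1
    refine h3 (ψ m) (l (ψ m) + g) hlg ?_
    rw [c1]
    congr 2
    abel
  obtain ⟨c', hc', hglob⟩ := key
  refine ⟨D, χ, e, min c c', hD, hχ, lt_min hc hc', ?_, ?_⟩
  · intro y hy γ h1 h2
    exact hloc y hy γ (h1.trans (min_le_left _ _)) (h2.trans (min_le_left _ _))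
  · intro y hy γ hRy h1 h2
    exact hglob y hy γ hRy (h1.trans (min_le_right _ _)) (h2.trans (min_le_right _ _))

end Pool.Agent.W486.SC
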